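import Pool.Agent.H67.SEP.BC

/-!
Project SEP, module BDB: relations determined by a finite part of the points are projections of
closed sets.
-/

set_option linter.unusedVariables false
set_option synthInstance.maxSize 100000

namespace SW.SEP

open SW

/-- all points which extend the given finite sequences up to `n` are in `R` -/
def CBB {N : Type} [SetStr N] [ZFC N] (R : N → N → N → N → Prop) (n a b c d e : N) : Prop :=
  Sub n (dmn a) → ∀ x y w v, Fnc om om x → Fnc om om y → Fnc om om w → Fnc om om v →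
    res x n = res a n → res y n = res b n → res w n = res c n → res v n = res d n → R x y w v

theorem sep_bdb (hsq : SQFStmt) : BDBStmt := by
  intro N _ _ R hR n hn h
  have F := hsq N
  have hR' : ∀ {k : ℕ} {t s u x : (Fin k → N) → N} [DfT t] [DfT s] [DfT u] [DfT x],
      Df (fun v => R (t v) (s v) (u v) (x v)) :=
    fun {k t s u x} ht hs hu hx => hR.comp4 ht hs hu hx
  have hC : Df (fun z : Fin 5 → N => CBB R n (z 0) (z 1) (z 2) (z 3) (z 4)) := by
    unfold CBB
    infer_instance
  refine ⟨mkT (CBB R n), fun x y w v hx hy hw hv => ⟨fun hr => ?_, fun hr => ?_⟩⟩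
  rotate_left 1
  · obtain ⟨u, hu, hr⟩ := hr
    have := (mem_mkT' F hC hn hx hy hw hv hu).1 (hr n hn)
    unfold CBB at this
    simp only [F.rr (Sub.refl n)] at this
    refine this ?_ x y w v hx hy hw hv rfl rfl rfl rfl
    rw [(F.rsi hx hn).2]
    exact Sub.refl n
  · have hz : Fn1 (fun _ : N => (emp : N)) := inferInstance
    have hu : Fnc (om : N) om (gr om (fun _ => emp)) := F.fgr _ hz fun _ _ => emp_mem_om
    refine ⟨_, hu, fun m hm => (mem_mkT' F hC hm hx hy hw hv hu).2 ?_⟩
    intro hsub x' y' w' v' hx' hy' hw' hv' ex ey ew ev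
    rw [(F.rsi hx hm).2] at hsub
    rw [F.rr hsub] at ex ey ew ev
    exact (h x y w v x' y' w' v' ⟨hx, hx', ex.symm⟩ ⟨hy, hy', ey.symm⟩ ⟨hw, hw', ew.symm⟩
      ⟨hv, hv', ev.symm⟩).1 hr

end SW.SEP
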