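import Pool.Agent.H63.SEP.Stmts3

/-!
Project SEP, module BDD: Borel relations are projections of closed sets, and so are their
complements.
-/

set_option linter.unusedVariables false
set_option synthInstance.maxSize 100000

namespace SW.SEP

open SW

theorem Ana.congr {N : Type} [SetStr N] [ZFC N] {R R' : N → N → N → N → Prop} (h : Ana R)
    (e : ∀ x y w v, Fnc om om x → Fnc om om y → Fnc om om w → Fnc om om v →
      (R x y w v ↔ R' x y w v)) : Ana R' := by
  obtain ⟨T, hT⟩ := h
  exact ⟨T, fun x y w v hx hy hw hv => (e x y w v hx hy hw hv).symm.trans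
    (hT x y w v hx hy hw hv)⟩

theorem sep_bdd (hB : BDBStmt) (hI : BDIStmt) (hU : BDUStmt) : BDDStmt := by
  intro N _ _ R h
  induction h with
  | base R hR n hn h =>
    refine ⟨hB N R hR n hn h, hB N _ (Df.not (hP := hR)) n hn ?_⟩
    intro x y w v x' y' w' v' h1 h2 h3 h4
    exact not_congr (h x y w v x' y' w' v' h1 h2 h3 h4)
  | neg _ ih =>
    refine ⟨ih.2, ih.1.congr fun x y w v _ _ _ _ => ?_⟩
    exact not_not.symm
  | all R hR h ih =>
    refine ⟨hI N R hR fun k hk => (ih k hk).1, ?_⟩
    have h1 : Df (fun v : Fin 5 → N => ¬ R (v 0) (v 1) (v 2) (v 3) (v 4)) := Df.not (hP := hR)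
    refine (hU N (fun k x y w v => ¬ R k x y w v) h1 fun k hk => (ih k hk).2).congr
      fun x y w v _ _ _ _ => ?_
    push Not
    exact Iff.rfl
  | congr _ h ih =>
    exact ⟨ih.1.congr h, ih.2.congr fun x y w v hx hy hw hv => not_congr (h x y w v hx hy hw hv)⟩

end SW.SEP
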