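import Pool.Agent.H67.SEP.BC

/-!
Project SEP, module BDI: countable intersections of projections of closed sets.
-/

set_option linter.unusedVariables false
set_option synthInstance.maxSize 100000

namespace SW.SEP

open SW

/-- the condition for the intersection: `k0` is a pairing function, `g` the sequence of trees -/
def CBI {N : Type} [SetStr N] [ZFC N] (k0 g a b c d e : N) : Prop :=
  ∀ k l, E k om → E l om → Sub l (dmn a) → (∀ i, E i l → E (app k0 (opair k i)) (dmn a)) →
    E (opair (res a l) (opair (res b l) (opair (res c l) (opair (res d l)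
      (gr l (fun i => app e (app k0 (opair k i)))))))) (app g k)

/-- the point `x y w v` has the branch `u` in the tree `T` -/
def Bch {N : Type} [SetStr N] [ZFC N] (T x y w v u : N) : Prop :=
  Fnc om om u ∧ ∀ n, E n om → E (q5 n x y w v u) T

/-- choice of trees for a definable sequence of relations -/
theorem trees_ex {N : Type} [SetStr N] [ZFC N] (hchs : CHSStmt)
    (R : N → N → N → N → N → Prop)
    (hR : Df (fun v : Fin 5 → N => R (v 0) (v 1) (v 2) (v 3) (v 4)))
    (h : ∀ k, E k om → Ana (R k)) :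
    ∃ g, ∀ k, E k om → ∀ x y w v, Fnc om om x → Fnc om om y → Fnc om om w → Fnc om om v →
      (R k x y w v ↔ ∃ u, Bch (app g k) x y w v u) := by
  have hR' : ∀ {n : ℕ} {t s u x y : (Fin n → N) → N} [DfT t] [DfT s] [DfT u] [DfT x] [DfT y],
      Df (fun v => R (t v) (s v) (u v) (x v) (y v)) :=
    fun {n t s u x y} ht hs hu hx hy => Df.comp5 hR ht hs hu hx hy
  refine hchs N om (fun k T => ∀ x y w v, Fnc om om x → Fnc om om y → Fnc om om w →
    Fnc om om v → (R k x y w v ↔ ∃ u, Bch T x y w v u)) ?_ h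
  unfold Bch
  infer_instance

/-- choice of branches -/
theorem branches_ex {N : Type} [SetStr N] [ZFC N] (hchs : CHSStmt) (g x y w v : N)
    (h : ∀ k, E k om → ∃ u, Bch (app g k) x y w v u) :
    ∃ f, ∀ k, E k om → Bch (app g k) x y w v (app f k) := by
  refine hchs N om (fun k u => Bch (app g k) x y w v u) ?_ h
  unfold Bch
  infer_instance

theorem sep_bdi (hsq : SQFStmt) (hchs : CHSStmt) (hin2 : IN2Stmt) : BDIStmt := by
  intro N _ _ R hR h
  have F := hsq N
  obtain ⟨k0, hk0⟩ := hin2 N
  obtain ⟨g, hg⟩ := trees_ex hchs R hR h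
  have hC : Df (fun z : Fin 5 → N => CBI k0 g (z 0) (z 1) (z 2) (z 3) (z 4)) := by
    unfold CBI
    infer_instance
  refine ⟨mkT (CBI k0 g), fun x y w v hx hy hw hv => ⟨fun hr => ?_, ?_⟩⟩
  · -- merging the branches
    obtain ⟨f, hf⟩ := branches_ex hchs g x y w v fun k hk => (hg k hk x y w v hx hy hw hv).1
      (hr k hk)
    have hU : Fn1 (fun j : N => SW.the (fun z => (∃ k i, E k om ∧ E i om ∧
      j = app k0 (opair k i) ∧ z = app (app f k) i) ∨ ((¬ ∃ k i, E k om ∧ E i om ∧
        j = app k0 (opair k i)) ∧ z = emp))) := inferInstance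
    have e1 : ∀ k i, E k om → E i om → SW.the (fun z => (∃ k' i', E k' om ∧ E i' om ∧
      app k0 (opair k i) = app k0 (opair k' i') ∧ z = app (app f k') i') ∨
        ((¬ ∃ k' i', E k' om ∧ E i' om ∧ app k0 (opair k i) = app k0 (opair k' i')) ∧
          z = emp)) = app (app f k) i := by
      intro k i hk hi
      refine the_eq (Or.inl ⟨k, i, hk, hi, rfl, rfl⟩) ?_
      rintro z (⟨k', i', hk', hi', h1, h2⟩ | ⟨h1, _⟩)
      · obtain ⟨rfl, rfl⟩ := hk0.2 _ _ _ _ hk hi hk' hi' h1
        exact h2
      · exact absurd ⟨k, i, hk, hi, rfl⟩ h1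
    have hu : Fnc om om (gr om (fun j : N => SW.the (fun z => (∃ k i, E k om ∧ E i om ∧
      j = app k0 (opair k i) ∧ z = app (app f k) i) ∨ ((¬ ∃ k i, E k om ∧ E i om ∧
        j = app k0 (opair k i)) ∧ z = emp)))) := by
      refine F.fgr _ hU fun j hj => ?_
      by_cases h1 : ∃ k i, E k om ∧ E i om ∧ j = app k0 (opair k i)
      · obtain ⟨k, i, hk, hi, rfl⟩ := h1
        rw [e1 k i hk hi]
        exact (F.fapp (hf k hk).1 hi).2
      · rw [the_eq (y := (emp : N)) (Or.inr ⟨h1, rfl⟩) ?_]
        · exact emp_mem_om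
        · rintro z (⟨k, i, hk, hi, h2, -⟩ | ⟨_, h2⟩)
          · exact absurd ⟨k, i, hk, hi, h2⟩ h1
          · exact h2
    generalize hue : gr om (fun j : N => SW.the (fun z => (∃ k i, E k om ∧ E i om ∧
      j = app k0 (opair k i) ∧ z = app (app f k) i) ∨ ((¬ ∃ k i, E k om ∧ E i om ∧
        j = app k0 (opair k i)) ∧ z = emp))) = u at hu
    have e2 : ∀ k i, E k om → E i om → app u (app k0 (opair k i)) = app (app f k) i := by
      intro k i hk hi
      rw [← hue, app_gr hU (hk0.1 k i hk hi)]
      exact e1 k i hk hi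
    refine ⟨u, hu, fun m hm => (mem_mkT' F hC hm hx hy hw hv hu).2 ?_⟩
    intro k l hk hl hlm hi
    rw [(F.rsi hx hm).2] at hlm hi
    have e3 : gr l (fun i => app (res u m) (app k0 (opair k i))) = res (app f k) l := by
      refine res_eq_gr F inferInstance (hf k hk).1 (Trans_om l hl) fun i hil => ?_
      have hio := Trans_om l hl i hil
      rw [← e2 k i hk hio]
      exact (F.fapp' (F.frs hu (Trans_om m hm)) (opair_mem_res.2
        ⟨(F.fapp hu (hk0.1 k i hk hio)).1, hi i hil⟩)).2.2
    rw [e3, F.rr hlm, F.rr hlm, F.rr hlm, F.rr hlm]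
    exact (hf k hk).2 l hl
  · rintro ⟨u, hu, hu'⟩ k hk
    refine (hg k hk x y w v hx hy hw hv).2 ⟨gr om (fun i => app u (app k0 (opair k i))), ?_, ?_⟩
    · exact F.fgr _ inferInstance fun i hi => (F.fapp hu (hk0.1 k i hk hi)).2
    · intro l hl
      have hm : ∃ m, E m om ∧ Sub l m ∧ ∀ i, E i l → E (app k0 (opair k i)) m := by
        refine om_ind (C := fun l => ∃ m, E m om ∧ Sub l m ∧
          ∀ i, E i l → E (app k0 (opair k i)) m) inferInstance ?_ ?_ l hl
        · exact ⟨emp, emp_mem_om, Sub.refl _, fun i hi => absurd hi (not_mem_emp i)⟩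
        · rintro l hl ⟨m, hm, h1, h2⟩
          obtain ⟨m1, hm1, h3, h4⟩ := max2 hm (suc_mem_om hl)
          obtain ⟨m2, hm2, h5, h6⟩ := max2 hm1 (suc_mem_om (hk0.1 k l hk hl))
          refine ⟨m2, hm2, h4.trans h5, fun i hi => ?_⟩
          rw [mem_suc] at hi
          rcases hi with hi | rfl
          · exact h5 _ (h3 _ (h2 i hi))
          · exact h6 _ (by simp)
      obtain ⟨m, hm, h1, h2⟩ := hm
      have := (mem_mkT' F hC hm hx hy hw hv hu).1 (hu' m hm) k l hk hl
        (by rw [(F.rsi hx hm).2]; exact h1) (by rw [(F.rsi hx hm).2]; exact h2)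
      rw [F.rr h1, F.rr h1, F.rr h1, F.rr h1] at this
      unfold q5
      have e3 : gr l (fun i => app (res u m) (app k0 (opair k i))) =
          res (gr om (fun i => app u (app k0 (opair k i)))) l := by
        refine res_eq_gr F (a := om) (b := om) inferInstance (F.fgr _ inferInstance fun i hi =>
          (F.fapp hu (hk0.1 k i hk hi)).2) (Trans_om l hl) fun i hil => ?_
        have hio := Trans_om l hl i hil
        rw [app_gr inferInstance hio]
        exact (F.fapp' (F.frs hu (Trans_om m hm)) (opair_mem_res.2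
          ⟨(F.fapp hu (hk0.1 k i hk hio)).1, h2 i hil⟩)).2.2
      rw [← e3]
      exact this

end SW.SEP
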