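import Pool.Agent.H67.SEP.BC

/-!
Project SEP, module BDS: continuous substitution into Borel relations.
-/

set_option linter.unusedVariables false
set_option synthInstance.maxSize 100000

namespace SW.SEP

open SW

theorem Agr.mono {N : Type} [SetStr N] [ZFC N] (F : SqFacts N) {n m x x' : N} (h : Agr n x x')
    (hm : Sub m n) : Agr m x x' :=
  ⟨h.1, h.2.1, by rw [← F.rr (v := x) hm, ← F.rr (v := x') hm, h.2.2]⟩

theorem sep_bds (hsq : SQFStmt) : BDSStmt := by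
  intro N _ _ R f1 f2 f3 f4 h c1 c2 c3 c4
  have F := hsq N
  induction h with
  | base R hR n hn h =>
    obtain ⟨n1, hn1, e1⟩ := c1.2.2 n hn
    obtain ⟨n2, hn2, e2⟩ := c2.2.2 n hn
    obtain ⟨n3, hn3, e3⟩ := c3.2.2 n hn
    obtain ⟨n4, hn4, e4⟩ := c4.2.2 n hn
    obtain ⟨a, ha, ha1, ha2⟩ := max2 hn1 hn2
    obtain ⟨b, hb, hb1, hb2⟩ := max2 hn3 hn4
    obtain ⟨m, hm, hm1, hm2⟩ := max2 ha hb
    refine BD.base _ (hR.comp4 (R := R) c1.1 c2.1 c3.1 c4.1) m hm ?_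
    intro x y w v x' y' w' v' h1 h2 h3 h4
    have key : ∀ (f : N → N → N → N → N) (k : N), Cn4 f → Sub k m →
        (∀ x y w v x' y' w' v', Agr k x x' → Agr k y y' → Agr k w w' →
          Agr k v v' → res (f x y w v) n = res (f x' y' w' v') n) →
        Agr n (f x y w v) (f x' y' w' v') := by
      intro f k hf hk he
      exact ⟨hf.2.1 x y w v h1.1 h2.1 h3.1 h4.1, hf.2.1 x' y' w' v' h1.2.1 h2.2.1 h3.2.1 h4.2.1,
        he x y w v x' y' w' v' (h1.mono F hk) (h2.mono F hk) (h3.mono F hk) (h4.mono F hk)⟩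
    exact h _ _ _ _ _ _ _ _ (key f1 n1 c1 (ha1.trans hm1) e1) (key f2 n2 c2 (ha2.trans hm1) e2)
      (key f3 n3 c3 (hb1.trans hm2) e3) (key f4 n4 c4 (hb2.trans hm2) e4)
  | neg _ ih => exact BD.neg ih
  | all R hR h ih =>
    have hr : ∀ {f : N → N → N → N → N}, DfT (fun v : Fin 4 → N => f (v 0) (v 1) (v 2) (v 3)) →
        DfT (fun v : Fin 5 → N => f (v 1) (v 2) (v 3) (v 4)) := fun {f} hf =>
      hf.ren ![1, 2, 3, 4]
    exact BD.all (fun k x y w v => R k (f1 x y w v) (f2 x y w v) (f3 x y w v) (f4 x y w v))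
      (Df.comp5 (R := R) hR (inferInstance : DfT (fun v : Fin 5 → N => v 0)) (hr c1.1) (hr c2.1)
        (hr c3.1) (hr c4.1)) ih
  | congr _ h ih =>
    exact BD.congr ih fun x y w v hx hy hw hv => h _ _ _ _ (c1.2.1 x y w v hx hy hw hv)
      (c2.2.1 x y w v hx hy hw hv) (c3.2.1 x y w v hx hy hw hv) (c4.2.1 x y w v hx hy hw hv)

end SW.SEP
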