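import Pool.Agent.H67.SEP.BDI

/-!
Project SEP, module BDU: countable unions of projections of closed sets.
-/

set_option linter.unusedVariables false
set_option synthInstance.maxSize 100000

namespace SW.SEP

open SW

/-- the condition for the union: `g` is the sequence of trees -/
def CBU {N : Type} [SetStr N] [ZFC N] (g a b c d e : N) : Prop :=
  ∀ l, E l (dmn a) →
    E (opair (res a l) (opair (res b l) (opair (res c l) (opair (res d l)
      (gr l (fun i => app e (suc i))))))) (app g (app e emp))

theorem sep_bdu (hsq : SQFStmt) (hchs : CHSStmt) : BDUStmt := by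
  intro N _ _ R hR h
  have F := hsq N
  obtain ⟨g, hg⟩ := trees_ex hchs R hR h
  have hC : Df (fun z : Fin 5 → N => CBU g (z 0) (z 1) (z 2) (z 3) (z 4)) := by
    unfold CBU
    infer_instance
  have hapr : ∀ {u m i : N}, Fnc om om u → E m om → E i m → app (res u m) i = app u i := by
    intro u m i hu hm hi
    exact (F.fapp' (F.frs hu (Trans_om m hm)) (opair_mem_res.2
      ⟨(F.fapp hu (Trans_om m hm i hi)).1, hi⟩)).2.2
  refine ⟨mkT (CBU g), fun x y w v hx hy hw hv => ⟨?_, ?_⟩⟩
  · rintro ⟨k, hk, hr⟩
    obtain ⟨f, hf, hf'⟩ := (hg k hk x y w v hx hy hw hv).1 hr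
    have hU : Fn1 (fun j : N => SW.the (fun z => (j = emp ∧ z = k) ∨
      ∃ i, E i om ∧ j = suc i ∧ z = app f i)) := inferInstance
    have e0 : SW.the (fun z => ((emp : N) = emp ∧ z = k) ∨
        ∃ i, E i om ∧ emp = suc i ∧ z = app f i) = k := by
      refine the_eq (Or.inl ⟨rfl, rfl⟩) ?_
      rintro z (⟨_, h1⟩ | ⟨i, hi, h1, _⟩)
      · exact h1
      · exact absurd h1.symm (suc_ne_emp i)
    have e1 : ∀ i, E i om → SW.the (fun z => (suc i = emp ∧ z = k) ∨
        ∃ i', E i' om ∧ suc i = suc i' ∧ z = app f i') = app f i := by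
      intro i hi
      refine the_eq (Or.inr ⟨i, hi, rfl, rfl⟩) ?_
      rintro z (⟨h1, _⟩ | ⟨i', hi', h1, h2⟩)
      · exact absurd h1 (suc_ne_emp i)
      · rw [suc_inj h1]
        exact h2
    have hu : Fnc om om (gr om (fun j : N => SW.the (fun z => (j = emp ∧ z = k) ∨
        ∃ i, E i om ∧ j = suc i ∧ z = app f i))) := by
      refine F.fgr _ hU fun j hj => ?_
      rcases om_cases hj with rfl | ⟨i, hi, rfl⟩
      · rw [e0]
        exact hk
      · rw [e1 i hi]
        exact (F.fapp hf hi).2
    generalize hue : gr om (fun j : N => SW.the (fun z => (j = emp ∧ z = k) ∨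
      ∃ i, E i om ∧ j = suc i ∧ z = app f i)) = u at hu
    have e2 : app u emp = k := by
      rw [← hue, app_gr hU emp_mem_om]
      exact e0
    have e3 : ∀ i, E i om → app u (suc i) = app f i := by
      intro i hi
      rw [← hue, app_gr hU (suc_mem_om hi)]
      exact e1 i hi
    refine ⟨u, hu, fun m hm => (mem_mkT' F hC hm hx hy hw hv hu).2 ?_⟩
    intro l hl
    rw [(F.rsi hx hm).2] at hl
    have hlo := Trans_om m hm l hl
    have hlm : Sub l m := (Ord_nat hm).sub_of_mem hl
    have h0 : E emp m := by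
      refine emp_mem_ord (Ord_nat hm) ?_
      rintro rfl
      exact not_mem_emp _ hl
    have e4 : gr l (fun i => app (res u m) (suc i)) = res f l := by
      refine res_eq_gr F inferInstance hf (Trans_om l hlo) fun i hil => ?_
      have hio := Trans_om l hlo i hil
      have : E (suc i) m := by
        rcases nat_suc_mem hlo hil with h1 | h1
        · exact hlm _ h1
        · rw [h1]; exact hl
      rw [hapr hu hm this, e3 i hio]
    rw [e4, hapr hu hm h0, e2, F.rr hlm, F.rr hlm, F.rr hlm, F.rr hlm]
    exact hf' l hlo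
  · rintro ⟨u, hu, hu'⟩
    have hk : E (app u emp) om := (F.fapp hu emp_mem_om).2
    have hf : Fnc om om (gr om (fun i => app u (suc i))) :=
      F.fgr _ inferInstance fun i hi => (F.fapp hu (suc_mem_om hi)).2
    refine ⟨app u emp, hk, (hg _ hk x y w v hx hy hw hv).2 ⟨_, hf, fun l hl => ?_⟩⟩
    have hm := suc_mem_om hl
    have hlm : Sub l (suc l) := fun z hz => by rw [mem_suc]; exact Or.inl hz
    have := (mem_mkT' F hC hm hx hy hw hv hu).1 (hu' _ hm) l
      (by rw [(F.rsi hx hm).2]; simp)
    have h0 : E emp (suc l) := emp_mem_ord (Ord_nat hm) (suc_ne_emp l)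
    have e4 : gr l (fun i => app (res u (suc l)) (suc i)) =
        res (gr om (fun i => app u (suc i))) l := by
      refine res_eq_gr F inferInstance hf (Trans_om l hl) fun i hil => ?_
      have hio := Trans_om l hl i hil
      rw [app_gr inferInstance hio, hapr hu hm]
      rw [suc_mem_suc (Ord_nat hio) (Ord_nat hl)]
      exact hil
    rw [e4, hapr hu hm h0, F.rr hlm, F.rr hlm, F.rr hlm, F.rr hlm] at this
    exact this

end SW.SEP
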