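import Pool.Agent.H63.SEP.Stmts3

/-!
Project SEP, module IN2: pairing functions.
-/

set_option linter.unusedVariables false
set_option synthInstance.maxSize 100000

namespace SW.SEP

open SW

theorem sep_in2 (hcbp : CBPStmt) : IN2Stmt := by
  intro N _ _
  obtain ⟨f, h1, h2⟩ := hcbp N
  have hf : Fn1 (fun y : N => SW.the (fun n => (E n om ∧ E (opair y n) f) ∧
      ∀ m, E m n → ¬ (E m om ∧ E (opair y m) f))) := inferInstance
  have key : ∀ y : N, E y (prod om om) → E (SW.the (fun n => (E n om ∧ E (opair y n) f) ∧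
      ∀ m, E m n → ¬ (E m om ∧ E (opair y m) f))) om ∧
      E (opair y (SW.the (fun n => (E n om ∧ E (opair y n) f) ∧
      ∀ m, E m n → ¬ (E m om ∧ E (opair y m) f)))) f := by
    intro y hy
    obtain ⟨n, hn, hnf⟩ := h1 y hy
    obtain ⟨b, hb, hb1, hb2, -⟩ := ord_min (C := fun n => E n om ∧ E (opair y n) f)
      inferInstance (Ord_nat hn) ⟨hn, hnf⟩
    have he : SW.the (fun n => (E n om ∧ E (opair y n) f) ∧
      ∀ m, E m n → ¬ (E m om ∧ E (opair y m) f)) = b := by
      refine the_eq ⟨hb1, hb2⟩ ?_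
      rintro z ⟨hz1, hz2⟩
      rcases (Ord_nat hz1.1).tri hb with h | h | h
      · exact absurd hz1 (hb2 z h)
      · exact h
      · exact absurd hb1 (hz2 b h)
    rw [he]
    exact hb1
  refine ⟨gr (prod om om) (fun y : N => SW.the (fun n => (E n om ∧ E (opair y n) f) ∧
      ∀ m, E m n → ¬ (E m om ∧ E (opair y m) f))), ?_, ?_⟩
  · intro a b ha hb
    have hp : E (opair a b) (prod om om) := mem_prod.2 ⟨ha, hb⟩
    rw [app_gr hf hp]
    exact (key _ hp).1
  · intro a b a' b' ha hb ha' hb' h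
    have hp : E (opair a b) (prod om om) := mem_prod.2 ⟨ha, hb⟩
    have hp' : E (opair a' b') (prod om om) := mem_prod.2 ⟨ha', hb'⟩
    rw [app_gr hf hp, app_gr hf hp'] at h
    have k1 := key _ hp
    have k2 := key _ hp'
    rw [← h] at k2
    have := h2 _ _ _ hp hp' k1.1 k1.2 k2.2
    rwa [opair_inj] at this

end SW.SEP
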