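import Pool.Agent.H63.SEP.Stmts3

/-!
Project SEP, part N: tools for the modules BDB, BDI, BDU.
-/

set_option linter.unusedVariables false
set_option synthInstance.maxSize 100000

namespace SW.SEP

open SW

section
variable {N : Type} [SetStr N] [ZFC N]

/-- the set of quintuples of finite sequences -/
noncomputable def S5 : N :=
  prod (SQ om) (prod (SQ om) (prod (SQ om) (prod (SQ om) (SQ om))))

/-- the set of quintuples of finite sequences with the property `C` -/
noncomputable def mkT (C : N → N → N → N → N → Prop) : N :=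
  sep S5 (fun t => ∃ a b c d e, t = opair a (opair b (opair c (opair d e))) ∧ C a b c d e)

theorem mem_mkT {C : N → N → N → N → N → Prop}
    (hC : Df (fun v : Fin 5 → N => C (v 0) (v 1) (v 2) (v 3) (v 4))) {a b c d e : N} :
    E (opair a (opair b (opair c (opair d e)))) (mkT C) ↔
      (E a (SQ om) ∧ E b (SQ om) ∧ E c (SQ om) ∧ E d (SQ om) ∧ E e (SQ om)) ∧ C a b c d e := by
  have hC' : ∀ {n : ℕ} {t s u x y : (Fin n → N) → N} [DfT t] [DfT s] [DfT u] [DfT x] [DfT y],
      Df (fun v => C (t v) (s v) (u v) (x v) (y v)) :=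
    fun {n t s u x y} ht hs hu hx hy => Df.comp5 hC ht hs hu hx hy
  unfold mkT
  rw [mem_sep' (by infer_instance)]
  unfold S5
  rw [mem_prod, mem_prod, mem_prod, mem_prod]
  constructor
  · rintro ⟨h, a', b', c', d', e', h1, h2⟩
    rw [opair_inj, opair_inj, opair_inj, opair_inj] at h1
    obtain ⟨rfl, rfl, rfl, rfl, rfl⟩ := h1
    exact ⟨h, h2⟩
  · rintro ⟨h, h2⟩
    exact ⟨h, a, b, c, d, e, rfl, h2⟩

theorem mem_mkT' (F : SqFacts N) {C : N → N → N → N → N → Prop}
    (hC : Df (fun v : Fin 5 → N => C (v 0) (v 1) (v 2) (v 3) (v 4))) {m x y w v u : N}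
    (hm : E m om) (hx : Fnc om om x) (hy : Fnc om om y) (hw : Fnc om om w) (hv : Fnc om om v)
    (hu : Fnc om om u) :
    E (q5 m x y w v u) (mkT C) ↔ C (res x m) (res y m) (res w m) (res v m) (res u m) := by
  unfold q5
  rw [mem_mkT hC]
  exact ⟨fun h => h.2, fun h => ⟨⟨(F.rsi hx hm).1, (F.rsi hy hm).1, (F.rsi hw hm).1,
    (F.rsi hv hm).1, (F.rsi hu hm).1⟩, h⟩⟩

instance q5_df {n : ℕ} {t s u x y z : (Fin n → N) → N} [ht : DfT t] [hs : DfT s] [hu : DfT u]
    [hx : DfT x] [hy : DfT y] [hz : DfT z] :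
    DfT (fun v => q5 (t v) (s v) (u v) (x v) (y v) (z v)) := by
  unfold q5; infer_instance

/-- restrictions of functions as graphs -/
theorem res_eq_gr (F : SqFacts N) {a b v l : N} {f : N → N} (hf : Fn1 f) (hv : Fnc a b v)
    (hl : Sub l a) (h : ∀ i, E i l → f i = app v i) : gr l f = res v l := by
  refine ext fun z => ?_
  rw [mem_gr' hf, mem_res]
  constructor
  · rintro ⟨i, hi, rfl⟩
    rw [h i hi]
    exact ⟨(F.fapp hv (hl i hi)).1, i, _, hi, rfl⟩
  · rintro ⟨hz, i, y, hi, rfl⟩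
    exact ⟨i, hi, by rw [h i hi, (F.fapp' hv hz).2.2]⟩

/-- the larger of two natural numbers -/
theorem max2 {a b : N} (ha : E a om) (hb : E b om) : ∃ c, E c om ∧ Sub a c ∧ Sub b c := by
  rcases (Ord_nat ha).tri (Ord_nat hb) with h | h | h
  · exact ⟨b, hb, (Ord_nat hb).sub_of_mem h, Sub.refl b⟩
  · exact ⟨b, hb, by rw [h]; exact Sub.refl b, Sub.refl b⟩
  · exact ⟨a, ha, Sub.refl a, (Ord_nat ha).sub_of_mem h⟩

end

end SW.SEP
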